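import Pool.Agent.L7h24.AV.Stm

/-!
Project AP: sums over boxes.
-/

set_option autoImplicit false

namespace Pool.Agent.L7h24.AV

open Finset
open Pool.Agent.H373R2.T7 (pz Vz lamz)
open Pool.Agent.H807R2.Dav (ee)

/-- averaging over one coordinate -/
lemma avg_coord {k : ℕ} {α : Type} [DecidableEq α] (s : Fin k → Finset α) (i : Fin k) (Φ : (Fin k → α) → ℝ) :
    ∑ m ∈ Fintype.piFinset s, ∑ v ∈ s i, Φ (Function.update m i v) = (s i).card * ∑ m ∈ Fintype.piFinset s, Φ m := by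
  rw [← sum_product']
  have h1 : ((s i).card : ℝ) * ∑ m ∈ Fintype.piFinset s, Φ m = ∑ q ∈ Fintype.piFinset s ×ˢ s i, Φ q.1 := by
    rw [sum_product, mul_sum]
    apply sum_congr rfl
    intro m _
    simp only [sum_const, nsmul_eq_mul]
  rw [h1]
  refine sum_bij' (fun q _ => (Function.update q.1 i q.2, q.1 i)) (fun q _ => (Function.update q.1 i q.2, q.1 i)) ?_ ?_ ?_ ?_ ?_
  · rintro ⟨m, v⟩ hq
    rw [mem_product, Fintype.mem_piFinset] at hq ⊢
    refine ⟨fun j => ?_, hq.1 i⟩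
    by_cases hj : j = i
    · subst hj; simpa using hq.2
    · simpa [Function.update_of_ne hj] using hq.1 j
  · rintro ⟨m, v⟩ hq
    rw [mem_product, Fintype.mem_piFinset] at hq ⊢
    refine ⟨fun j => ?_, hq.1 i⟩
    by_cases hj : j = i
    · subst hj; simpa using hq.2
    · simpa [Function.update_of_ne hj] using hq.1 j
  · rintro ⟨m, v⟩ _
    simp
  · rintro ⟨m, v⟩ _
    simp
  · rintro ⟨m, v⟩ _
    rfl

lemma box_card (k A B : ℕ) : ((Box k A B).card : ℝ) = (A * B : ℝ) ^ k := by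
  unfold Box
  rw [Fintype.card_piFinset]
  simp [card_product]

lemma mem_box {k A B : ℕ} {v : Fin k → ℕ × ℕ} : v ∈ Box k A B ↔ ∀ j, (v j).1 ∈ Icc 1 A ∧ (v j).2 ∈ Icc 1 B := by
  unfold Box
  rw [Fintype.mem_piFinset]
  exact forall_congr' fun j => mem_product

/-- the sum over the box of a product over the coordinates -/
lemma box_prod (k A B : ℕ) (h : Fin k → ℕ × ℕ → ℝ) :
    ∑ v ∈ Box k A B, ∏ j, h j (v j) = ∏ j, ∑ x ∈ Icc 1 A ×ˢ Icc 1 B, h j x := by
  unfold Box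
  rw [← prod_univ_sum]

/-- singling out one coordinate -/
lemma box_one {k A B : ℕ} (hA : 1 ≤ A) (hB : 1 ≤ B) (I : Finset ℕ) (s : Fin k → ℕ → ℕ) (f : ℕ → ℝ) (u : Fin k → ℕ → ℝ)
    (j : Fin k) (M W α β : ℝ) (hα : 0 ≤ α) 
    (h1 : ∀ l, l ≠ j → ∀ i ∈ I, ∑ x ∈ Icc 1 A ×ˢ Icc 1 B, u l (s l i + x.1 * i + x.2) ^ 2 ≤ M)
    (h2 : ∀ w : ℕ → ℝ, (∀ i, |w i| ≤ W) →
      ∑ x ∈ Icc 1 A ×ˢ Icc 1 B, (∑ i ∈ I, w i * f (s j i + x.1 * i + x.2)) ^ 2 ≤ α * ∑ i ∈ I, w i ^ 2 + β)
    (h3 : ∀ i ∈ I, ∀ v ∈ Box k A B, |∏ l ∈ univ.erase j, u l (arg s v l i)| ≤ W) (hW : 0 ≤ W) :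
    ∑ v ∈ Box k A B, (∑ i ∈ I, (∏ l ∈ univ.erase j, u l (arg s v l i)) * f (arg s v j i)) ^ 2 ≤
      α * I.card * M ^ (k - 1) + β * (A * B : ℝ) ^ (k - 1) := by
  classical
  have hAB : (0 : ℝ) < A * B := by
    have : (0 : ℝ) < A := by exact_mod_cast hA
    have : (0 : ℝ) < B := by exact_mod_cast hB
    positivity
  have hk : 1 ≤ k := by have := j.2; omega
  have hcardj : ((Icc 1 A ×ˢ Icc 1 B).card : ℝ) = A * B := by simp [card_product]
  obtain ⟨w, hw⟩ : ∃ w : (Fin k → ℕ × ℕ) → ℕ → ℝ, ∀ v i, w v i = if i ∈ I then ∏ l ∈ univ.erase j, u l (arg s v l i) else 0 :=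
    ⟨_, fun _ _ => rfl⟩
  have hupd : ∀ (v : Fin k → ℕ × ℕ) (x : ℕ × ℕ) (l : Fin k) (i : ℕ), l ≠ j → arg s (Function.update v j x) l i = arg s v l i := by
    intro v x l i hl
    unfold arg
    rw [Function.update_of_ne hl]
  have hupdj : ∀ (v : Fin k → ℕ × ℕ) (x : ℕ × ℕ) (i : ℕ), arg s (Function.update v j x) j i = s j i + x.1 * i + x.2 := by
    intro v x i
    unfold arg
    rw [Function.update_self]
  have hA1 := avg_coord (fun _ : Fin k => Icc 1 A ×ˢ Icc 1 B) j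
    (fun v => (∑ i ∈ I, (∏ l ∈ univ.erase j, u l (arg s v l i)) * f (arg s v j i)) ^ 2)
  rw [hcardj] at hA1
  have hstep : ∀ v ∈ Box k A B, ∑ x ∈ Icc 1 A ×ˢ Icc 1 B,
      (∑ i ∈ I, (∏ l ∈ univ.erase j, u l (arg s (Function.update v j x) l i)) * f (arg s (Function.update v j x) j i)) ^ 2 ≤
      α * ∑ i ∈ I, w v i ^ 2 + β := by
    intro v hv
    have h4 := h2 (w v) (by
      intro i
      rw [hw]
      split_ifs with hi
      · exact h3 i hi v hv
      · rw [abs_zero]; exact hW)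
    refine le_trans (le_of_eq ?_) h4
    apply sum_congr rfl
    intro x _
    congr 1
    apply sum_congr rfl
    intro i hi
    rw [hupdj, hw, if_pos hi]
    congr 1
    apply prod_congr rfl
    intro l hl
    rw [hupd v x l i (ne_of_mem_erase hl)]
  have hsum : ∑ v ∈ Box k A B, ∑ i ∈ I, w v i ^ 2 ≤ I.card * ((A * B : ℝ) * M ^ (k - 1)) := by
    rw [sum_comm]
    have h5 : ∀ i ∈ I, ∑ v ∈ Box k A B, w v i ^ 2 ≤ (A * B : ℝ) * M ^ (k - 1) := by
      intro i hi
      have e1 : ∀ v, w v i ^ 2 = ∏ l, (if l = j then (1 : ℝ) else u l (s l i + (v l).1 * i + (v l).2) ^ 2) := by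
        intro v
        rw [hw, if_pos hi, ← prod_pow, ← mul_prod_erase univ _ (mem_univ j), if_pos rfl, one_mul]
        apply prod_congr rfl
        intro l hl
        rw [if_neg (ne_of_mem_erase hl)]
        rfl
      simp_rw [e1]
      have e2 := box_prod k A B (fun l x => if l = j then (1 : ℝ) else u l (s l i + x.1 * i + x.2) ^ 2)
      rw [e2, ← mul_prod_erase univ _ (mem_univ j)]
      simp only [if_true, sum_const, nsmul_eq_mul, mul_one]
      rw [hcardj]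
      apply mul_le_mul_of_nonneg_left _ hAB.le
      calc ∏ l ∈ univ.erase j, ∑ x ∈ Icc 1 A ×ˢ Icc 1 B, (if l = j then (1 : ℝ) else u l (s l i + x.1 * i + x.2) ^ 2)
          ≤ ∏ l ∈ univ.erase j, M := by
            apply prod_le_prod
            · intro l _
              apply sum_nonneg
              intro x _
              split_ifs <;> positivity
            · intro l hl
              have hl' := ne_of_mem_erase hl
              simp only [if_neg hl']
              exact h1 l hl' i hi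
        _ = M ^ (k - 1) := by
            rw [prod_const, card_erase_of_mem (mem_univ j), card_univ, Fintype.card_fin]
    refine (sum_le_sum h5).trans (le_of_eq ?_)
    rw [sum_const, nsmul_eq_mul]
  have hfin : (A * B : ℝ) * ∑ v ∈ Box k A B, (∑ i ∈ I, (∏ l ∈ univ.erase j, u l (arg s v l i)) * f (arg s v j i)) ^ 2 ≤
      (A * B : ℝ) * (α * I.card * M ^ (k - 1) + β * (A * B : ℝ) ^ (k - 1)) := by
    unfold Box at hstep hsum ⊢
    rw [← hA1]
    refine (sum_le_sum hstep).trans ?_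
    rw [sum_add_distrib, ← mul_sum, sum_const, nsmul_eq_mul]
    have hc : ((Fintype.piFinset (fun _ : Fin k => Icc 1 A ×ˢ Icc 1 B)).card : ℝ) = (A * B : ℝ) ^ k := box_card k A B
    rw [hc]
    have h6 := mul_le_mul_of_nonneg_left hsum hα
    have h7 : (A * B : ℝ) ^ k = (A * B : ℝ) * (A * B : ℝ) ^ (k - 1) := by
      rw [← pow_succ']
      congr 1
      omega
    rw [h7]
    calc α * ∑ v ∈ Fintype.piFinset (fun _ : Fin k => Icc 1 A ×ˢ Icc 1 B), ∑ i ∈ I, w v i ^ 2 + (A * B : ℝ) * (A * B : ℝ) ^ (k - 1) * β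
        ≤ α * (I.card * ((A * B : ℝ) * M ^ (k - 1))) + (A * B : ℝ) * (A * B : ℝ) ^ (k - 1) * β := by linarith
      _ = _ := by ring
  exact le_of_mul_le_mul_left hfin hAB

end Pool.Agent.L7h24.AV
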