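import Mathlib
import Pool.Agent.H373R2.T7.SupE2
import Pool.Agent.H373R2.T7.SysCount
import Pool.Agent.H373R2.T7.Tuple2

/-!
Project AP (helper24), MP_3aaefc_nt: the asymptotic formula for the number of `i ∈ I` such that all `p_i + 2 P_j(i)`, `j < k`,
are prime, `P_j(i) = g_j(i) + a_j i + b_j`, with ARBITRARY functions `g_j`, an arbitrary set `I ⊆ [1, N]`, for almost all
`(a_j, b_j) ∈ [1, A] × [1, B]`, in the complete range `C log^k B ≤ N`, `A ≥ log^D B`, `B / log^K B ≤ A N ≤ K B` (for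
nondecreasing `g_j` even `A ≥ (log log B)^(k+1)`).

The parts: FA, FB (Fourier analysis), PAIR (sieve), T1, T2, T (assembly), PRM (from von Mangoldt to primes).
-/

set_option autoImplicit false

namespace Pool.Agent.L7h24.AV

open Finset
open Pool.Agent.H373R2.T7 (pz Vz lamz)
open Pool.Agent.H807R2.Dav (ee)

/-- the box of the `(a_j, b_j)` -/
def Box (k A B : ℕ) : Finset (Fin k → ℕ × ℕ) := Fintype.piFinset (fun _ : Fin k => Icc 1 A ×ˢ Icc 1 B)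

/-- the argument `s_j(i) + a_j i + b_j` -/
def arg {k : ℕ} (s : Fin k → ℕ → ℕ) (v : Fin k → ℕ × ℕ) (j : Fin k) (i : ℕ) : ℕ := s j i + (v j).1 * i + (v j).2

/-- the local factor of a pair of integers with the difference `m` -/
noncomputable def hq (q : ℕ) (m : ℤ) : ℝ :=
  if (q : ℤ) ∣ m then (1 - 1 / (q : ℝ))⁻¹ else (1 - 2 / (q : ℝ)) * ((1 - 1 / (q : ℝ))⁻¹) ^ 2

/-- the mean over `a` of the product of the local factors of `σ + a r`, `q ≤ w` -/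
noncomputable def Gw (w : ℕ) (r σ : ℤ) : ℝ := ∏ q ∈ (pz w).filter (fun q : ℕ => (q : ℤ) ∣ r), hq q σ

/-- [FA] (Parseval on the grid `t / Z`, `t < Z`.) Write `u_b = ∑_i w_i f(t_i + b)`. With `F(α) = ∑_{n ≤ Z} f(n) e(n α)` and
`S(α) = ∑_{i ∈ I} w_i e(-t_i α)`: `u_b = Z⁻¹ ∑_{t < Z} F(t/Z) S(t/Z) e(-b t/Z)`, as `n ≡ t_i + b mod Z` and `1 ≤ n, t_i + b ≤ Z`
imply `n = t_i + b`. Bessel: `∑_{b ≤ B} u_b² ≤ Z⁻¹ ∑_t |F S|² ≤ δ² Z⁻¹ ∑_t |S(t/Z)|² = δ² ∑ w_i²` (`t_i` distinct, `< Z`). -/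
def S_FA : Prop := ∀ (f : ℕ → ℝ) (Z : ℕ) (δ : ℝ),
  (∀ α : ℝ, ‖∑ n ∈ Icc 1 Z, ((f n : ℝ) : ℂ) * ee ((n : ℝ) * α)‖ ≤ δ) →
  ∀ (I : Finset ℕ) (w : ℕ → ℝ) (t : ℕ → ℕ) (B : ℕ), 1 ≤ B → (∀ i ∈ I, t i + B ≤ Z) → Set.InjOn t I →
  ∑ b ∈ Icc 1 B, (∑ i ∈ I, w i * f (t i + b)) ^ 2 ≤ δ ^ 2 * ∑ i ∈ I, w i ^ 2

/-- [FB] As in [FA], for `t_i = s_i + a i`, summed over `a ≤ A`:
`∑_{a, b} u² ≤ Z⁻¹ ∑_{t<Z} |F(t/Z)|² ∑_a |S_a(t/Z)|²` and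
`∑_a |S_a(α)|² ≤ A ∑ w_i² + 2 W² N ∑_{r=1}^N |∑_{a=1}^A e(a r α)| ≤ A ∑ w_i² + 2 W² N E(α)`, `E(α) = ∑_{r=1}^N KK A (r α)`
(`geo_bound` of `H807R2.Dav1`; `KK_mono`: `A ≤ 2 (A N) / r`). Dirichlet (`Real.exists_rat_abs_sub_le_and_den_le`) with
`Q = ⌊A N / T⌋`: if `q ≥ T`, then `typeI_lin` of `H373R2.T7.Lin` (with `N := A N`, `D := N`) gives
`E(α) ≤ C (1 + log (A N))² (A N / T + N)`. If `q < T` then `|α - c/q| ≤ T / (A N)`, there `E(α) ≤ 3 A N` and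
`|F| ≤ δ`; the number of such `t < Z` is at most `∑_{q ≤ T} (q + 1) (2 Z T / (A N) + 1) ≤ C T³ Z / (A N)`. -/
def S_FB : Prop := ∃ C : ℝ, 0 < C ∧ ∀ (f : ℕ → ℝ) (Z : ℕ) (δ : ℝ), 0 ≤ δ →
  (∀ α : ℝ, ‖∑ n ∈ Icc 1 Z, ((f n : ℝ) : ℂ) * ee ((n : ℝ) * α)‖ ≤ δ) →
  ∀ (N A B : ℕ), 1 ≤ N → 1 ≤ A → 1 ≤ B → A * N ≤ Z → ∀ (I : Finset ℕ), I ⊆ Icc 1 N →
  ∀ (w : ℕ → ℝ) (W : ℝ), (∀ i, |w i| ≤ W) → ∀ (s : ℕ → ℕ), (∀ i ∈ I, s i + A * i + B ≤ Z) →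
  ∀ T : ℝ, 1 ≤ T → T ≤ A * N →
  ∑ a ∈ Icc 1 A, ∑ b ∈ Icc 1 B, (∑ i ∈ I, w i * f (s i + a * i + b)) ^ 2 ≤
    A * (∑ i ∈ I, w i ^ 2) * (∑ n ∈ Icc 1 Z, f n ^ 2) +
    C * N * W ^ 2 * ((1 + Real.log (A * N)) ^ 2 * ((A * N) / T + N) * (∑ n ∈ Icc 1 Z, f n ^ 2) + δ ^ 2 * T ^ 3)

/-- [PAIR] Let `m = min w w'`, `M = max w w'`. For fixed `a`, `sys_count` with `Q p b := p ∣ t + a i + b ∨ p ∣ t' + a i' + b`
for `p ≤ m`, and only the condition of the larger one of `w, w'` for `m < p ≤ M`; `nuB` is `1` if `p` divides the difference of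
the two arguments or `p > m`, otherwise `2`. After division by `Vz w * Vz w'` the main term is
`B ∏_{q ≤ m} hq q (t + a i - t' - a i')`. Then the sum over `a ≤ A`: the primes `q ∣ i - i'` give `Gw`, independent of `a`; for
the other ones write `hq q = α_q + β_q 1[q ∣ ·]`, expand (`Finset.prod_add`) and count the `a` in ONE class modulo
`d = ∏ q` (`count_class`, error at most `1`): the main term is `A ∏ (α_q + β_q / q) = A`, the error at most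
`∏ (α_q + β_q) = ∏ (1 - 1/q)⁻¹`, in total `≤ (Vz m)⁻¹`. (`Vz_inv_small` of `H373R2.T7.LamZ2` bounds `(Vz w)⁻¹`.) -/
def S_PAIR : Prop := ∀ E U : ℕ, ∃ B0 : ℕ, ∀ B : ℕ, B0 ≤ B → ∀ w w' : ℕ, 1 ≤ w → 1 ≤ w' →
  (w : ℝ) ≤ Real.log B ^ E → (w' : ℝ) ≤ Real.log B ^ E → ∀ A t t' i i' : ℕ, i ≠ i' →
  |∑ a ∈ Icc 1 A, ∑ b ∈ Icc 1 B, lamz w (t + a * i + b) * lamz w' (t' + a * i' + b) -
    A * B * Gw (min w w') ((i : ℤ) - i') ((t : ℤ) - t')| ≤ A * B / Real.log B ^ U + B * (Vz (min w w'))⁻¹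

/-- [T1] the primes are replaced by the sieve model -/
def S_T1 : Prop := ∀ k K : ℕ, 1 ≤ k → ∃ D E : ℕ, ∀ ε : ℝ, 0 < ε → ∃ C : ℝ, ∃ B0 : ℕ, ∀ B : ℕ, B0 ≤ B →
  ∃ z : ℕ, Real.log B ≤ z ∧ (z : ℝ) ≤ Real.log B ^ E ∧
  ∀ A N : ℕ, 1 ≤ A → C * Real.log B ^ k ≤ N → (B : ℝ) ≤ A * N * Real.log B ^ K →
  ∀ s : Fin k → ℕ → ℕ, (∀ j, ∀ i ∈ Icc 1 N, s j i + A * i + B ≤ K * B) →
  (Real.log B ^ D ≤ A ∨ (∀ j, MonotoneOn (s j) (Set.Icc 1 N))) → ∀ I : Finset ℕ, I ⊆ Icc 1 N →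
  ∑ v ∈ Box k A B, (∑ i ∈ I, (∏ j, ArithmeticFunction.vonMangoldt (arg s v j i) - ∏ j, lamz z (arg s v j i))) ^ 2 ≤
    ε * ((A * B : ℝ) ^ k * N ^ 2)

/-- [T2] the sieve model is replaced by its local version at a fixed level -/
def S_T2 : Prop := ∀ k E : ℕ, 1 ≤ k → ∀ ε : ℝ, 0 < ε → ∃ y0 : ℕ, ∀ y : ℕ, y0 ≤ y → ∃ B0 : ℕ, ∀ B : ℕ, B0 ≤ B →
  ∀ z : ℕ, Real.log B ≤ z → (z : ℝ) ≤ Real.log B ^ E →
  ∀ A N : ℕ, Real.log (Real.log B) ^ (k + 1) ≤ A → Real.log B ≤ N → ∀ s : Fin k → ℕ → ℕ, ∀ I : Finset ℕ, I ⊆ Icc 1 N →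
  ∑ v ∈ Box k A B, (∑ i ∈ I, (∏ j, lamz z (arg s v j i) - ∏ j, lamz y (arg s v j i))) ^ 2 ≤
    ε * ((A * B : ℝ) ^ k * N ^ 2)

/-- [T] both together -/
def S_T : Prop := ∀ k K : ℕ, 1 ≤ k → ∃ D : ℕ, ∀ ε : ℝ, 0 < ε → ∃ C : ℝ, ∃ y0 : ℕ, ∀ y : ℕ, y0 ≤ y → ∃ B0 : ℕ,
  ∀ B : ℕ, B0 ≤ B →
  ∀ A N : ℕ, C * Real.log B ^ k ≤ N → (B : ℝ) ≤ A * N * Real.log B ^ K →
  ∀ s : Fin k → ℕ → ℕ, (∀ j, ∀ i ∈ Icc 1 N, s j i + A * i + B ≤ K * B) →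
  (Real.log B ^ D ≤ A ∨ (Real.log (Real.log B) ^ (k + 1) ≤ A ∧ ∀ j, MonotoneOn (s j) (Set.Icc 1 N))) →
  ∀ I : Finset ℕ, I ⊆ Icc 1 N →
  ∑ v ∈ Box k A B, (∑ i ∈ I, (∏ j, ArithmeticFunction.vonMangoldt (arg s v j i) - ∏ j, lamz y (arg s v j i))) ^ 2 ≤
    ε * ((A * B : ℝ) ^ k * N ^ 2)

/-- the `n`-th prime, `n ≥ 1` -/
noncomputable def p (n : ℕ) : ℕ := Nat.nth Nat.Prime (n - 1)

/-- `p_i + 2 P_j(i)`, `P_j(i) = g_j(i) + a_j i + b_j` -/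
noncomputable def val {k : ℕ} (g : Fin k → ℕ → ℕ) (v : Fin k → ℕ × ℕ) (j : Fin k) (i : ℕ) : ℕ :=
  p i + 2 * (g j i + (v j).1 * i + (v j).2)

/-- the `i ∈ I` with all `p_i + 2 P_j(i)` prime -/
noncomputable def hits {k : ℕ} (I : Finset ℕ) (g : Fin k → ℕ → ℕ) (v : Fin k → ℕ × ℕ) : Finset ℕ :=
  I.filter (fun i => ∀ j, (val g v j i).Prime)

/-- the `i ∈ I` with all `p_i + 2 P_j(i)` prime to the product of the primes `≤ y` -/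
noncomputable def loc {k : ℕ} (y : ℕ) (I : Finset ℕ) (g : Fin k → ℕ → ℕ) (v : Fin k → ℕ × ℕ) : Finset ℕ :=
  I.filter (fun i => ∀ j, (val g v j i).Coprime (primorial y))

/-- [PRM] From [T], used with `s_j(i) = p_i + 2 g_j(i)`, `A := 2 A`, `B := 2 B`, `K := 3 K + 1` (the sum over the pairs
`(2 a_j, 2 b_j)` is at most the sum over all pairs). Let `L = log B`, `ψ(v) = ∑_{i∈I} ∏_j Λ(val)`. Then
`∑_{i∈I} ∏_j lamz y (val) = #loc / V_y^k`, and `|L^k #hits - ψ| ≤ η ψ + ∑_{i ∈ I} (2 log (K'B))^k 1[i bad for v]`, where `i` is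
bad if some `val ≤ B / L^(4k)` or some `val` is a proper prime power: for a given `i` (and all other coordinates) the number of
such `b_j ≤ B` is at most `B / L^(4k) + √(K'B) log (K'B)`; if `i` is not bad and all values are prime, then
`|L^k - ∏ log| ≤ η ∏ log`. Cauchy-Schwarz for the sum over the bad `i`; `∑_v ψ²` is bounded by [T] and `#loc ≤ N`
(`η → 0` for fixed `y`). -/
def S_PRM : Prop := ∀ k K : ℕ, 1 ≤ k → ∃ D : ℕ, ∀ ε : ℝ, 0 < ε → ∃ C : ℝ, ∃ y0 : ℕ, ∀ y : ℕ, y0 ≤ y → ∃ B0 : ℕ,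
  ∀ B : ℕ, B0 ≤ B →
  ∀ A N : ℕ, C * Real.log B ^ k ≤ N → (B : ℝ) ≤ A * N * Real.log B ^ K → A * N ≤ K * B → p N ≤ K * B →
  ∀ g : Fin k → ℕ → ℕ, (∀ j, ∀ i ∈ Icc 1 N, g j i ≤ K * B) →
  (Real.log B ^ D ≤ A ∨ (Real.log (Real.log B) ^ (k + 1) ≤ A ∧ ∀ j, MonotoneOn (g j) (Set.Icc 1 N))) →
  ∀ I : Finset ℕ, I ⊆ Icc 1 N →
  ∑ v ∈ Box k A B, (((hits I g v).card : ℝ) - (loc y I g v).card / (Vz y * Real.log B) ^ k) ^ 2 ≤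
    ε * ((A * B : ℝ) ^ k * (N / Real.log B ^ k) ^ 2)

end Pool.Agent.L7h24.AV
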