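import Pool.Agent.L7h24.AV.T
import Pool.Agent.L7h56.AV.Fa
import Pool.Agent.L7h56.AV.Fb
import Pool.Agent.L7h87.AV.T2
import Pool.Agent.L7h46.AV.Prm

/-!
Project AP: the theorem.
-/

set_option autoImplicit false

namespace Pool.Agent.L7h24.AV

theorem final : S_PRM :=
  Pool.Agent.L7h46.AV.s_PRM (s_T (s_T1 Pool.Agent.L7h56.AV.s_FA Pool.Agent.L7h56.AV.s_FB) Pool.Agent.L7h87.AV.s_T2')

end Pool.Agent.L7h24.AV
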