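import Pool.Agent.L7h24.AV.T1

/-!
Project AP: both steps together.
-/

set_option autoImplicit false

namespace Pool.Agent.L7h24.AV

open Finset
open Pool.Agent.H373R2.T7 (pz Vz lamz Vz_pos lamz_nonneg)

lemma ev_loglog (k : ℕ) : ∃ N0 : ℕ, ∀ N : ℕ, N0 ≤ N → Real.log (Real.log N) ^ k ≤ Real.log N := by
  have hlim : Filter.Tendsto (fun N : ℕ => Real.log (N : ℝ)) Filter.atTop Filter.atTop :=
    Real.tendsto_log_atTop.comp (tendsto_natCast_atTop_atTop (R := ℝ))
  have h3 := (Real.isLittleO_pow_log_id_atTop (n := k)).bound (show (0 : ℝ) < 1 by norm_num)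
  have h4 := hlim.eventually h3
  obtain ⟨N0, h0⟩ := Filter.eventually_atTop.1 (h4.and (hlim.eventually_ge_atTop 1))
  refine ⟨N0, fun N hN => ?_⟩
  obtain ⟨h5, h6⟩ := h0 N hN
  simp only [id, one_mul] at h5
  rw [Real.norm_of_nonneg (by linarith : (0 : ℝ) ≤ Real.log N)] at h5
  exact (Real.le_norm_self _).trans h5

theorem s_T (hT1 : S_T1) (hT2 : S_T2) : S_T := by
  intro k K hk
  obtain ⟨D, E, h1⟩ := hT1 k K hk
  refine ⟨D + 1, fun ε hε => ?_⟩
  obtain ⟨C, B1, h1⟩ := h1 (ε / 4) (by linarith)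
  obtain ⟨y0, h2⟩ := hT2 k E hk (ε / 4) (by linarith)
  refine ⟨max C 1, y0, fun y hy => ?_⟩
  obtain ⟨B2, h2⟩ := h2 y hy
  obtain ⟨B3, h3⟩ := ev_logN 1
  obtain ⟨B4, h4⟩ := ev_loglog (k + 1)
  refine ⟨max (max B1 B2) (max B3 (max B4 1)), fun B hB A N hN hAN s hs hdis I hI => ?_⟩
  have hL1 := h3 B (by omega)
  have hll := h4 B (by omega)
  obtain ⟨z, hz1, hz2, h1⟩ := h1 B (by omega)
  have hLk : 0 ≤ Real.log B ^ k := by positivity
  have hN1 : C * Real.log B ^ k ≤ N := (mul_le_mul_of_nonneg_right (le_max_left _ _) hLk).trans hN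
  have hN2 : Real.log B ≤ N := by
    have h5 : 1 * Real.log B ^ k ≤ N := (mul_le_mul_of_nonneg_right (le_max_right _ _) hLk).trans hN
    rw [one_mul] at h5
    exact (le_self_pow₀ hL1 (by omega)).trans h5
  have hB0 : (0 : ℝ) < B := by exact_mod_cast (by omega : 0 < B)
  have hA1 : 1 ≤ A := by
    rcases Nat.eq_zero_or_pos A with h | h
    · exfalso
      rw [h] at hAN
      simp only [Nat.cast_zero, zero_mul] at hAN
      linarith
    · exact h
  have hdis1 : Real.log B ^ D ≤ A ∨ (∀ j, MonotoneOn (s j) (Set.Icc 1 N)) := by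
    rcases hdis with h | h
    · exact Or.inl ((pow_le_pow_right₀ hL1 (by omega)).trans h)
    · exact Or.inr h.2
  have hA2 : Real.log (Real.log B) ^ (k + 1) ≤ A := by
    rcases hdis with h | h
    · refine hll.trans (le_trans ?_ h)
      exact le_self_pow₀ hL1 (by omega)
    · exact h.1
  have g1 := h1 A N hA1 hN1 hAN s hs hdis1 I hI
  have g2 := h2 B (by omega) z hz1 hz2 A N hA2 hN2 s I hI
  have g3 : ∀ v ∈ Box k A B, (∑ i ∈ I, (∏ j, ArithmeticFunction.vonMangoldt (arg s v j i) - ∏ j, lamz y (arg s v j i))) ^ 2 ≤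
      2 * (∑ i ∈ I, (∏ j, ArithmeticFunction.vonMangoldt (arg s v j i) - ∏ j, lamz z (arg s v j i))) ^ 2 +
      2 * (∑ i ∈ I, (∏ j, lamz z (arg s v j i) - ∏ j, lamz y (arg s v j i))) ^ 2 := by
    intro v _
    have e : ∑ i ∈ I, (∏ j, ArithmeticFunction.vonMangoldt (arg s v j i) - ∏ j, lamz y (arg s v j i)) =
        ∑ i ∈ I, (∏ j, ArithmeticFunction.vonMangoldt (arg s v j i) - ∏ j, lamz z (arg s v j i)) +
        ∑ i ∈ I, (∏ j, lamz z (arg s v j i) - ∏ j, lamz y (arg s v j i)) := by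
      rw [← sum_add_distrib]
      apply sum_congr rfl
      intro i _
      ring
    rw [e]
    nlinarith [sq_nonneg (∑ i ∈ I, (∏ j, ArithmeticFunction.vonMangoldt (arg s v j i) - ∏ j, lamz z (arg s v j i)) -
      ∑ i ∈ I, (∏ j, lamz z (arg s v j i) - ∏ j, lamz y (arg s v j i)))]
  refine (sum_le_sum g3).trans ?_
  rw [sum_add_distrib, ← mul_sum, ← mul_sum]
  have h0 : 0 ≤ (A * B : ℝ) ^ k * (N : ℝ) ^ 2 := by positivity
  linarith

end Pool.Agent.L7h24.AV
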