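import Mathlib

/-!
Project AP: numerical inequalities.
-/

set_option autoImplicit false

namespace Pool.Agent.L7h24.AV

lemma num_a (k K : ℕ) (hk : 1 ≤ k) (CF c2 e ℓ L A N B : ℝ) (hCF : 0 < CF) (hc2 : 0 < c2) (he : 0 < e) (hK : (1 : ℝ) ≤ K)
    (hB : 0 < B) (hN : 0 < N) (hA0 : 0 < A) (hℓ1 : 1 ≤ ℓ) (hℓ2 : 24 * CF * c2 * K * 2 ^ (2 * k + 2) / e ≤ ℓ)
    (hℓ3 : 6 * CF * K ^ 2 / e ≤ ℓ) (hL : ℓ ≤ 2 * L) (hLℓ : L ≤ ℓ) (hA : L ^ (2 * k + 2) ≤ A) (hAN : B ≤ A * N * L ^ K) :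
    CF * N * (ℓ ^ (k - 1)) ^ 2 * ((2 * ℓ) ^ 2 * (A * N / ℓ ^ (2 * k + 4) + N) * (c2 * (K * B) * ℓ) +
      (K * B / ℓ ^ (4 * k + K + 6)) ^ 2 * (ℓ ^ (2 * k + 4)) ^ 3) ≤ e / 2 * (A * B * N ^ 2) := by
  have hℓ0 : 0 < ℓ := by linarith
  have hK0 : (0 : ℝ) < K := by linarith
  have hL0 : 0 < L := by linarith
  obtain ⟨m, rfl⟩ : ∃ m, k = m + 1 := ⟨k - 1, by omega⟩
  rw [Nat.add_sub_cancel]
  have hp : ∀ n : ℕ, 1 ≤ ℓ ^ n := fun n => one_le_pow₀ hℓ1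
  -- (i)
  have h1 : CF * N * (ℓ ^ m) ^ 2 * ((2 * ℓ) ^ 2 * (A * N / ℓ ^ (2 * (m + 1) + 4)) * (c2 * (K * B) * ℓ)) ≤ e / 6 * (A * B * N ^ 2) := by
    have e1 : CF * N * (ℓ ^ m) ^ 2 * ((2 * ℓ) ^ 2 * (A * N / ℓ ^ (2 * (m + 1) + 4)) * (c2 * (K * B) * ℓ)) =
        (4 * CF * c2 * K / ℓ ^ 3) * (A * B * N ^ 2) := by
      field_simp
      ring
    rw [e1]
    apply mul_le_mul_of_nonneg_right _ (by positivity)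
    rw [div_le_iff₀ (by positivity)]
    have h2 : (1 : ℝ) ≤ 2 ^ (2 * (m + 1) + 2) := one_le_pow₀ (by norm_num)
    rw [div_le_iff₀ he] at hℓ2
    have h3 : ℓ ≤ ℓ ^ 3 := le_self_pow₀ hℓ1 (by norm_num)
    have h4 : 24 * CF * c2 * K * 1 ≤ 24 * CF * c2 * K * 2 ^ (2 * (m + 1) + 2) := mul_le_mul_of_nonneg_left h2 (by positivity)
    have h5 : ℓ * e ≤ ℓ ^ 3 * e := mul_le_mul_of_nonneg_right h3 he.le
    nlinarith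
  -- (ii)
  have h2 : CF * N * (ℓ ^ m) ^ 2 * ((2 * ℓ) ^ 2 * N * (c2 * (K * B) * ℓ)) ≤ e / 6 * (A * B * N ^ 2) := by
    have e1 : CF * N * (ℓ ^ m) ^ 2 * ((2 * ℓ) ^ 2 * N * (c2 * (K * B) * ℓ)) =
        (4 * CF * c2 * K * ℓ ^ (2 * m + 3)) * (B * N ^ 2) := by ring
    have e2 : e / 6 * (A * B * N ^ 2) = (e / 6 * A) * (B * N ^ 2) := by ring
    rw [e1, e2]
    apply mul_le_mul_of_nonneg_right _ (by positivity)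
    have h3 : ℓ ^ (2 * (m + 1) + 2) ≤ 2 ^ (2 * (m + 1) + 2) * A := by
      calc ℓ ^ (2 * (m + 1) + 2) ≤ (2 * L) ^ (2 * (m + 1) + 2) := pow_le_pow_left₀ hℓ0.le hL _
        _ = 2 ^ (2 * (m + 1) + 2) * L ^ (2 * (m + 1) + 2) := mul_pow _ _ _
        _ ≤ _ := mul_le_mul_of_nonneg_left hA (by positivity)
    have h4 : ℓ ^ (2 * (m + 1) + 2) = ℓ * ℓ ^ (2 * m + 3) := by ring
    rw [h4] at h3
    have h5 : 0 < ℓ ^ (2 * m + 3) := by positivity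
    rw [div_le_iff₀ he] at hℓ2
    have h6 : 24 * CF * c2 * K * 2 ^ (2 * (m + 1) + 2) * ℓ ^ (2 * m + 3) ≤ ℓ * e * ℓ ^ (2 * m + 3) :=
      mul_le_mul_of_nonneg_right hℓ2 h5.le
    have h7 : ℓ * e * ℓ ^ (2 * m + 3) ≤ 2 ^ (2 * (m + 1) + 2) * A * e := by
      calc ℓ * e * ℓ ^ (2 * m + 3) = (ℓ * ℓ ^ (2 * m + 3)) * e := by ring
        _ ≤ _ := mul_le_mul_of_nonneg_right h3 he.le
    have h8 : (0 : ℝ) < 2 ^ (2 * (m + 1) + 2) := by positivity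
    have h9 : 2 ^ (2 * (m + 1) + 2) * (24 * CF * c2 * K * ℓ ^ (2 * m + 3)) ≤ 2 ^ (2 * (m + 1) + 2) * (A * e) := by
      calc 2 ^ (2 * (m + 1) + 2) * (24 * CF * c2 * K * ℓ ^ (2 * m + 3)) =
          24 * CF * c2 * K * 2 ^ (2 * (m + 1) + 2) * ℓ ^ (2 * m + 3) := by ring
        _ ≤ _ := h6.trans h7
        _ = _ := by ring
    have h10 := le_of_mul_le_mul_left h9 h8
    linarith
  -- (iii)
  have h3 : CF * N * (ℓ ^ m) ^ 2 * ((K * B / ℓ ^ (4 * (m + 1) + K + 6)) ^ 2 * (ℓ ^ (2 * (m + 1) + 4)) ^ 3) ≤ e / 6 * (A * B * N ^ 2) := by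
    have e1 : CF * N * (ℓ ^ m) ^ 2 * ((K * B / ℓ ^ (4 * (m + 1) + K + 6)) ^ 2 * (ℓ ^ (2 * (m + 1) + 4)) ^ 3) =
        (CF * K ^ 2 / ℓ ^ (2 * K + 2)) * (B * N * B) := by
      rw [div_pow]
      field_simp
      ring
    rw [e1]
    have h4 : B ≤ A * N * ℓ ^ K := hAN.trans (mul_le_mul_of_nonneg_left (pow_le_pow_left₀ hL0.le hLℓ _) (by positivity))
    have h5 : CF * K ^ 2 / ℓ ^ (2 * K + 2) * (B * N * B) ≤ CF * K ^ 2 / ℓ ^ (2 * K + 2) * (B * N * (A * N * ℓ ^ K)) :=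
      mul_le_mul_of_nonneg_left (mul_le_mul_of_nonneg_left h4 (by positivity)) (by positivity)
    refine h5.trans ?_
    have e2 : CF * K ^ 2 / ℓ ^ (2 * K + 2) * (B * N * (A * N * ℓ ^ K)) = (CF * K ^ 2 / ℓ ^ (K + 2)) * (A * B * N ^ 2) := by
      field_simp
      ring
    rw [e2]
    apply mul_le_mul_of_nonneg_right _ (by positivity)
    rw [div_le_iff₀ (by positivity)]
    rw [div_le_iff₀ he] at hℓ3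
    have h6 : ℓ ≤ ℓ ^ (K + 2) := le_self_pow₀ hℓ1 (by omega)
    have h7 : ℓ * e ≤ ℓ ^ (K + 2) * e := mul_le_mul_of_nonneg_right h6 he.le
    linarith
  have e3 : CF * N * (ℓ ^ m) ^ 2 * ((2 * ℓ) ^ 2 * (A * N / ℓ ^ (2 * (m + 1) + 4) + N) * (c2 * (K * B) * ℓ) +
      (K * B / ℓ ^ (4 * (m + 1) + K + 6)) ^ 2 * (ℓ ^ (2 * (m + 1) + 4)) ^ 3) =
      CF * N * (ℓ ^ m) ^ 2 * ((2 * ℓ) ^ 2 * (A * N / ℓ ^ (2 * (m + 1) + 4)) * (c2 * (K * B) * ℓ)) +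
      CF * N * (ℓ ^ m) ^ 2 * ((2 * ℓ) ^ 2 * N * (c2 * (K * B) * ℓ)) +
      CF * N * (ℓ ^ m) ^ 2 * ((K * B / ℓ ^ (4 * (m + 1) + K + 6)) ^ 2 * (ℓ ^ (2 * (m + 1) + 4)) ^ 3) := by ring
  rw [e3]
  linarith

lemma num_b (k K : ℕ) (hk : 1 ≤ k) (c2 e ℓ L A N B : ℝ) (hc2 : 0 < c2) (he : 0 < e) (hK : (1 : ℝ) ≤ K)
    (hB : 0 < B) (hN : 0 < N) (hA0 : 0 < A) (hℓ1 : 1 ≤ ℓ) (hℓ2 : K ^ 2 * (c2 * K) ^ (k - 1) / e ≤ ℓ)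
    (hL0 : 0 < L) (hLℓ : L ≤ ℓ) (hA : A ≤ L ^ (2 * k + 2)) (hAN : B ≤ A * N * L ^ K) :
    A * (K * B / ℓ ^ (4 * k + K + 6)) ^ 2 * N * (A * (c2 * (K * B) * ℓ)) ^ (k - 1) ≤ e * ((A * B) ^ k * N ^ 2) := by
  have hℓ0 : 0 < ℓ := by linarith
  have hK0 : (0 : ℝ) < K := by linarith
  obtain ⟨m, rfl⟩ : ∃ m, k = m + 1 := ⟨k - 1, by omega⟩
  rw [Nat.add_sub_cancel] at hℓ2 ⊢
  have h4 : B ≤ N * ℓ ^ (2 * (m + 1) + 2 + K) := by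
    refine hAN.trans ?_
    have h5 : A ≤ ℓ ^ (2 * (m + 1) + 2) := hA.trans (pow_le_pow_left₀ hL0.le hLℓ _)
    have h6 : L ^ K ≤ ℓ ^ K := pow_le_pow_left₀ hL0.le hLℓ _
    calc A * N * L ^ K ≤ ℓ ^ (2 * (m + 1) + 2) * N * ℓ ^ K :=
          mul_le_mul (mul_le_mul_of_nonneg_right h5 hN.le) h6 (by positivity) (by positivity)
      _ = _ := by rw [pow_add]; ring
  have e1 : A * (K * B / ℓ ^ (4 * (m + 1) + K + 6)) ^ 2 * N * (A * (c2 * (K * B) * ℓ)) ^ m =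
      (K ^ 2 * (c2 * K) ^ m * ℓ ^ m / ℓ ^ (2 * (4 * (m + 1) + K + 6))) * ((A * B) ^ (m + 1) * N * B) := by
    rw [div_pow, mul_pow A, mul_pow (c2 * (K * B)) ℓ, mul_pow c2 (K * B), mul_pow (K : ℝ) B m, mul_pow c2 (K : ℝ) m,
      mul_pow A B, ← pow_mul]
    field_simp
    ring
  rw [e1]
  have h5 : (K ^ 2 * (c2 * K) ^ m * ℓ ^ m / ℓ ^ (2 * (4 * (m + 1) + K + 6))) * ((A * B) ^ (m + 1) * N * B) ≤
      (K ^ 2 * (c2 * K) ^ m * ℓ ^ m / ℓ ^ (2 * (4 * (m + 1) + K + 6))) * ((A * B) ^ (m + 1) * N * (N * ℓ ^ (2 * (m + 1) + 2 + K))) :=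
    mul_le_mul_of_nonneg_left (mul_le_mul_of_nonneg_left h4 (by positivity)) (by positivity)
  refine h5.trans ?_
  have e2 : (K ^ 2 * (c2 * K) ^ m * ℓ ^ m / ℓ ^ (2 * (4 * (m + 1) + K + 6))) * ((A * B) ^ (m + 1) * N * (N * ℓ ^ (2 * (m + 1) + 2 + K))) =
      (K ^ 2 * (c2 * K) ^ m / ℓ ^ (5 * m + 16 + K)) * ((A * B) ^ (m + 1) * N ^ 2) := by
    have e3 : ℓ ^ (2 * (4 * (m + 1) + K + 6)) = ℓ ^ m * ℓ ^ (2 * (m + 1) + 2 + K) * ℓ ^ (5 * m + 16 + K) := by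
      rw [← pow_add, ← pow_add]
      congr 1
      ring
    rw [e3]
    field_simp
  rw [e2]
  apply mul_le_mul_of_nonneg_right _ (by positivity)
  rw [div_le_iff₀ (by positivity)]
  rw [div_le_iff₀ he] at hℓ2
  have h6 : ℓ ≤ ℓ ^ (5 * m + 16 + K) := le_self_pow₀ hℓ1 (by omega)
  have h7 : ℓ * e ≤ ℓ ^ (5 * m + 16 + K) * e := mul_le_mul_of_nonneg_right h6 he.le
  linarith

end Pool.Agent.L7h24.AV
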