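import Pool.Agent.L7h24.AV.T1a
import Pool.Agent.L7h24.AV.T1n

/-!
Project AP: the primes are replaced by the sieve model.
-/

set_option autoImplicit false

namespace Pool.Agent.L7h24.AV

open Finset
open Pool.Agent.H373R2.T7 (pz Vz lamz Vz_pos lamz_nonneg)
open Pool.Agent.H807R2.Dav (ee)

lemma ev_logN (c : ℝ) : ∃ N0 : ℕ, ∀ N : ℕ, N0 ≤ N → c ≤ Real.log N := Pool.Agent.H373R2.T7.ev_L' c

set_option maxHeartbeats 4000000 in
theorem s_T1 (hFA : S_FA) (hFB : S_FB) : S_T1 := by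
  classical
  intro k K hk
  obtain ⟨CF, hCF0, hFB⟩ := hFB
  obtain ⟨B1, hB1⟩ := Pool.Agent.H373R2.T7.sup_diff (4 * k + K + 6)
  obtain ⟨N1, h1⟩ := hB1 (B1 + 2)
  obtain ⟨N2, h2⟩ := Pool.Agent.TP975.RP.Vz_eps (B1 + 2) 2 1 one_pos
  refine ⟨2 * k + 2, B1 + 3, fun ε hε => ?_⟩
  rcases Nat.eq_zero_or_pos K with hK0 | hKpos
  · -- `K = 0` is impossible
    obtain ⟨N3, h3⟩ := ev_logN 2
    refine ⟨1, N3, fun B hB => ?_⟩
    have hlog2 := h3 B hB
    have hlog1 : 1 ≤ Real.log B := by linarith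
    refine ⟨⌈Real.log B⌉₊, Nat.le_ceil _, ?_, ?_⟩
    · have h3 := Nat.ceil_lt_add_one (show 0 ≤ Real.log B by linarith)
      have h4 : Real.log B ^ 2 ≤ Real.log B ^ (B1 + 3) := pow_le_pow_right₀ hlog1 (by omega)
      nlinarith
    · intro A N hA hN hAN s hs
      exfalso
      have hN1 : 1 ≤ N := by
        have h4 : (1 : ℝ) ≤ N := by
          refine le_trans ?_ hN
          rw [one_mul]
          exact one_le_pow₀ hlog1
        exact_mod_cast h4
      have h5 := hs ⟨0, hk⟩ 1 (mem_Icc.2 ⟨le_refl 1, hN1⟩)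
      rw [hK0] at h5
      omega
  have hkr : (1 : ℝ) ≤ k := by exact_mod_cast hk
  have hKr : (1 : ℝ) ≤ K := by exact_mod_cast hKpos
  obtain ⟨c2, hc2⟩ : ∃ c2 : ℝ, c2 = 2 * (Real.log 4 + 5) := ⟨_, rfl⟩
  have hlog4 : 0 ≤ Real.log 4 := Real.log_nonneg (by norm_num)
  have hc20 : 0 < c2 := by rw [hc2]; linarith
  obtain ⟨e, he⟩ : ∃ e : ℝ, e = ε / k ^ 2 := ⟨_, rfl⟩
  have he0 : 0 < e := by rw [he]; positivity
  obtain ⟨C, hC⟩ : ∃ C : ℝ, C = (2 * c2 * K) ^ k * (2 / e) + 1 := ⟨_, rfl⟩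
  obtain ⟨Q, hQ⟩ : ∃ Q : ℝ, Q = max (max (24 * CF * c2 * K * 2 ^ (2 * k + 2) / e) (6 * CF * K ^ 2 / e))
    (max (K ^ 2 * (c2 * K) ^ (k - 1) / (e / 2)) (2 ^ (B1 + 4))) := ⟨_, rfl⟩
  obtain ⟨N3, h3⟩ := ev_logN (max Q 2)
  obtain ⟨N4, h4'⟩ := Pool.Agent.H373R2.T7.ev_log' (2 * k + 4 + K) (2 ^ (2 * k + 4))
  refine ⟨C, max (max N1 N2) (max (max N3 N4) (max K 3)), fun B hB => ?_⟩
  have b6 := h4' B (by omega)
  have b1 : N1 ≤ B := by omega
  have b2 : N2 ≤ B := by omega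
  have b3 := h3 B (by omega)
  have b4 : K ≤ B := by omega
  have b5 : 3 ≤ B := by omega
  have hBr : (3 : ℝ) ≤ B := by exact_mod_cast b5
  have hB0 : (0 : ℝ) < B := by linarith
  obtain ⟨Z, hZ⟩ : ∃ Z, Z = K * B := ⟨_, rfl⟩
  have hZB : B ≤ Z := by rw [hZ]; exact Nat.le_mul_of_pos_left _ hKpos
  have hZr : (Z : ℝ) = K * B := by rw [hZ]; push_cast; ring
  have hZ1 : 1 ≤ Z := by omega
  obtain ⟨L, hL⟩ : ∃ L, L = Real.log B := ⟨_, rfl⟩
  obtain ⟨ℓ, hℓ⟩ : ∃ ℓ, ℓ = Real.log Z := ⟨_, rfl⟩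
  rw [← hL] at b3
  have hLQ : Q ≤ L := (le_max_left _ _).trans b3
  have hL2 : 2 ≤ L := (le_max_right _ _).trans b3
  have hLℓ : L ≤ ℓ := by
    rw [hL, hℓ]
    exact Real.log_le_log hB0 (by exact_mod_cast hZB)
  have hℓL : ℓ ≤ 2 * L := by
    rw [hℓ, hZr, Real.log_mul (by positivity) (by positivity), ← hL]
    have : Real.log K ≤ Real.log B := Real.log_le_log (by linarith) (by exact_mod_cast b4)
    rw [← hL] at this
    linarith
  have hℓQ : Q ≤ ℓ := hLQ.trans hLℓ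
  have hℓ2 : 2 ≤ ℓ := hL2.trans hLℓ
  have hℓ1 : 1 ≤ ℓ := by linarith
  have hℓ0 : 0 < ℓ := by linarith
  obtain ⟨z, hz⟩ : ∃ z, z = ⌈ℓ ^ (B1 + 1)⌉₊ := ⟨_, rfl⟩
  have hz1 : ℓ ^ (B1 + 1) ≤ z := by rw [hz]; exact Nat.le_ceil _
  have hz2 : (z : ℝ) ≤ ℓ ^ (B1 + 2) := by
    have h4 := Nat.ceil_lt_add_one (show 0 ≤ ℓ ^ (B1 + 1) by positivity)
    rw [← hz] at h4
    have h5 : (1 : ℝ) ≤ ℓ ^ (B1 + 1) := one_le_pow₀ hℓ1
    have h6 : ℓ ^ (B1 + 2) = ℓ ^ (B1 + 1) * ℓ := pow_succ _ _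
    rw [h6]
    nlinarith
  have hz0 : Real.log B ≤ z := by
    rw [← hL]
    refine hLℓ.trans (le_trans ?_ hz1)
    exact le_self_pow₀ hℓ1 (by omega)
  have hz3 : (z : ℝ) ≤ Real.log B ^ (B1 + 3) := by
    rw [← hL]
    refine hz2.trans ?_
    have h4 : ℓ ^ (B1 + 2) ≤ (2 * L) ^ (B1 + 2) := pow_le_pow_left₀ hℓ0.le hℓL _
    have h5 : (2 : ℝ) ^ (B1 + 4) ≤ L := by
      refine le_trans ?_ hLQ
      rw [hQ]
      exact (le_max_right _ _).trans (le_max_right _ _)
    refine h4.trans ?_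
    rw [mul_pow, pow_succ L (B1 + 2), mul_comm]
    apply mul_le_mul_of_nonneg_left _ (by positivity)
    refine le_trans ?_ h5
    exact pow_le_pow_right₀ (by norm_num) (by omega)
  refine ⟨z, hz0, hz3, fun A N hA hN hAN s hs hdis I hI => ?_⟩
  rw [← hL] at hN hAN hdis
  have hA0 : (0 : ℝ) < A := by exact_mod_cast hA
  have hC0 : 0 < C := by rw [hC]; positivity
  have hNpos : (0 : ℝ) < N := lt_of_lt_of_le (by positivity) hN
  have hN1 : 1 ≤ N := by
    have : 0 < N := by exact_mod_cast hNpos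
    omega
  -- sup norm
  have hsup := h1 Z (b1.trans hZB) z (by
    rw [← hℓ]
    refine le_trans ?_ hz1
    exact pow_le_pow_right₀ hℓ1 (by omega)) (by rw [← hℓ]; exact hz2)
  rw [← hℓ] at hsup
  have hV := h2 Z (b2.trans hZB) z (by rw [← hℓ]; exact hz2)
  rw [← hℓ, Real.rpow_one] at hV
  obtain ⟨δ, hδ⟩ : ∃ δ, δ = (Z : ℝ) / ℓ ^ (4 * k + K + 6) := ⟨_, rfl⟩
  rw [← hδ] at hsup
  have hδ0 : 0 ≤ δ := by rw [hδ]; positivity
  -- second moments
  have hS1 : ∑ n ∈ Icc 1 Z, ArithmeticFunction.vonMangoldt n ^ 2 ≤ (Real.log 4 + 4) * Z * ℓ := by rw [hℓ]; exact sq_lam_sum Z hZ1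
  have hS2 : ∑ n ∈ Icc 1 Z, lamz z n ^ 2 ≤ Z * ℓ := sq_lamz_sum z Z ℓ hV
  obtain ⟨S2, hS2d⟩ : ∃ S2, S2 = c2 * (K * B) * ℓ := ⟨_, rfl⟩
  have hZℓ : 0 ≤ (Z : ℝ) * ℓ := by positivity
  have hS20 : 0 ≤ S2 := by rw [hS2d]; positivity
  have hS3 : ∑ n ∈ Icc 1 Z, (ArithmeticFunction.vonMangoldt n - lamz z n) ^ 2 ≤ S2 := by
    have h4 : ∀ n ∈ Icc 1 Z, (ArithmeticFunction.vonMangoldt n - lamz z n) ^ 2 ≤
        2 * ArithmeticFunction.vonMangoldt n ^ 2 + 2 * lamz z n ^ 2 := by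
      intro n _
      nlinarith [sq_nonneg (ArithmeticFunction.vonMangoldt n + lamz z n)]
    refine (sum_le_sum h4).trans ?_
    rw [sum_add_distrib, ← mul_sum, ← mul_sum, hS2d, hc2, ← hZr]
    nlinarith
  have hS4 : ∑ n ∈ Icc 1 Z, ArithmeticFunction.vonMangoldt n ^ 2 ≤ S2 := by
    refine hS1.trans ?_
    rw [hS2d, hc2, ← hZr]
    nlinarith
  have hS5 : ∑ n ∈ Icc 1 Z, lamz z n ^ 2 ≤ S2 := by
    refine hS2.trans ?_
    rw [hS2d, hc2, ← hZr]
    nlinarith
  -- bounds of the factors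
  have hVi : lamz z 0 ≤ ℓ ∧ ∀ n, lamz z n ≤ ℓ := by
    have h4 : ∀ n, lamz z n ≤ ℓ := by
      intro n
      refine (lamz_le_inv z n).trans ?_
      have h5 : 1 ≤ (Vz z)⁻¹ := (one_le_inv₀ (Vz_pos z)).2 (Pool.Agent.H373R2.T7.Vz_le_one z)
      nlinarith
    exact ⟨h4 0, h4⟩
  have hargZ : ∀ v ∈ Box k A B, ∀ j, ∀ i ∈ I, arg s v j i ≤ Z := by
    intro v hv j i hi
    have h4 := mem_box.1 hv j
    rw [mem_Icc, mem_Icc] at h4
    have h5 := hs j i (hI hi)
    rw [← hZ] at h5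
    unfold arg
    have h6 : (v j).1 * i ≤ A * i := Nat.mul_le_mul_right _ h4.1.2
    omega
  have hIcard : (I.card : ℝ) ≤ N := by
    have h4 := card_le_card hI
    rw [Nat.card_Icc, Nat.add_sub_cancel] at h4
    exact_mod_cast h4
  have hwin : ∀ (l : Fin k) (u : ℕ → ℝ), ∑ n ∈ Icc 1 Z, u n ^ 2 ≤ S2 → ∀ i ∈ I,
      ∑ x ∈ Icc 1 A ×ˢ Icc 1 B, u (s l i + x.1 * i + x.2) ^ 2 ≤ A * S2 := by
    intro l u hu i hi
    have h4 := hs l i (hI hi)
    rw [← hZ] at h4
    exact win_sum u A B Z (s l i) i (by omega) h4 S2 hu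
  -- the bound for one coordinate
  have hone : ∀ j : Fin k, ∑ v ∈ Box k A B, (∑ i ∈ I, (∏ l ∈ univ.erase j,
      (if l < j then ArithmeticFunction.vonMangoldt (arg s v l i) else lamz z (arg s v l i))) *
      (ArithmeticFunction.vonMangoldt (arg s v j i) - lamz z (arg s v j i))) ^ 2 ≤ e * ((A * B : ℝ) ^ k * N ^ 2) := by
    intro j
    obtain ⟨u, hu⟩ : ∃ u : Fin k → ℕ → ℝ, ∀ l n, u l n = if l < j then ArithmeticFunction.vonMangoldt n else lamz z n :=
      ⟨_, fun _ _ => rfl⟩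
    obtain ⟨f, hf⟩ : ∃ f : ℕ → ℝ, ∀ n, f n = ArithmeticFunction.vonMangoldt n - lamz z n := ⟨_, fun _ => rfl⟩
    simp_rw [← hu, ← hf]
    simp_rw [← hf] at hsup hS3
    have p1 : ∀ l, l ≠ j → ∀ i ∈ I, ∑ x ∈ Icc 1 A ×ˢ Icc 1 B, u l (s l i + x.1 * i + x.2) ^ 2 ≤ A * S2 := by
      intro l _ i hi
      apply hwin l (u l) _ i hi
      by_cases hl : l < j
      · simp only [hu, if_pos hl]; exact hS4
      · simp only [hu, if_neg hl]; exact hS5
    have p3 : ∀ i ∈ I, ∀ v ∈ Box k A B, |∏ l ∈ univ.erase j, u l (arg s v l i)| ≤ ℓ ^ (k - 1) := by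
      intro i hi v hv
      rw [abs_prod]
      calc ∏ l ∈ univ.erase j, |u l (arg s v l i)| ≤ ∏ l ∈ univ.erase j, ℓ := by
            apply prod_le_prod
            · intro _ _; exact abs_nonneg _
            · intro l _
              rw [hu]
              split_ifs
              · rw [abs_of_nonneg ArithmeticFunction.vonMangoldt_nonneg, hℓ]
                exact lam_le (hargZ v hv l i hi) hZ1
              · rw [abs_of_nonneg (lamz_nonneg _ _)]
                exact hVi.2 _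
        _ = _ := by rw [prod_const, card_erase_of_mem (mem_univ j), card_univ, Fintype.card_fin]
    have hAB0 : 0 < (A : ℝ) * B := by positivity
    by_cases hcase : L ^ (2 * k + 2) ≤ A
    · -- large `A`
      have hT : ℓ ^ (2 * k + 4) ≤ (A : ℝ) * N := by
        rw [← hL] at b6
        have g1 : √(B : ℝ) ≤ B := by
          rw [Real.sqrt_le_left hB0.le]
          nlinarith
        have g2 : ℓ ^ (2 * k + 4) * L ^ K ≤ A * N * L ^ K := by
          calc ℓ ^ (2 * k + 4) * L ^ K ≤ (2 * L) ^ (2 * k + 4) * L ^ K :=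
                mul_le_mul_of_nonneg_right (pow_le_pow_left₀ hℓ0.le hℓL _) (by positivity)
            _ = 2 ^ (2 * k + 4) * L ^ (2 * k + 4 + K) := by rw [mul_pow, pow_add L]; ring
            _ ≤ B := b6.trans g1
            _ ≤ _ := hAN
        exact le_of_mul_le_mul_right g2 (by positivity)
      have hANZ : A * N ≤ Z := by
        have h4 := hs j N (mem_Icc.2 ⟨hN1, le_refl N⟩)
        rw [← hZ] at h4
        omega
      have p2 : ∀ w : ℕ → ℝ, (∀ i, |w i| ≤ ℓ ^ (k - 1)) →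
          ∑ x ∈ Icc 1 A ×ˢ Icc 1 B, (∑ i ∈ I, w i * f (s j i + x.1 * i + x.2)) ^ 2 ≤ (A * S2) * ∑ i ∈ I, w i ^ 2 +
            CF * N * (ℓ ^ (k - 1)) ^ 2 * ((2 * ℓ) ^ 2 * (A * N / ℓ ^ (2 * k + 4) + N) * S2 + δ ^ 2 * (ℓ ^ (2 * k + 4)) ^ 3) := by
        intro w hw
        rw [sum_product]
        have h4 := hFB f Z δ hδ0 hsup N A B hN1 hA (by omega) hANZ I hI w (ℓ ^ (k - 1)) hw (s j) (by
          intro i hi
          have h5 := hs j i (hI hi)
          rw [← hZ] at h5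
          exact h5) (ℓ ^ (2 * k + 4)) (one_le_pow₀ hℓ1) hT
        refine h4.trans ?_
        have hw2 : 0 ≤ ∑ i ∈ I, w i ^ 2 := sum_nonneg fun _ _ => sq_nonneg _
        have hlAN : Real.log (A * N) ≤ ℓ := by
          rw [hℓ]
          apply Real.log_le_log (by positivity)
          exact_mod_cast hANZ
        have hlAN0 : 0 ≤ Real.log (A * N) := by
          apply Real.log_nonneg
          have : 1 ≤ A * N := Nat.mul_pos hA hN1
          exact_mod_cast this
        have h5 : (1 + Real.log (A * N)) ^ 2 ≤ (2 * ℓ) ^ 2 := pow_le_pow_left₀ (by linarith) (by linarith) 2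
        have h6 : (1 + Real.log (A * N)) ^ 2 * ((A * N) / ℓ ^ (2 * k + 4) + N) * (∑ n ∈ Icc 1 Z, f n ^ 2) ≤
            (2 * ℓ) ^ 2 * ((A * N) / ℓ ^ (2 * k + 4) + N) * S2 := by
          apply mul_le_mul _ hS3 (sum_nonneg fun _ _ => sq_nonneg _) (by positivity)
          exact mul_le_mul_of_nonneg_right h5 (by positivity)
        have h7 : A * (∑ i ∈ I, w i ^ 2) * (∑ n ∈ Icc 1 Z, f n ^ 2) ≤ (A * S2) * ∑ i ∈ I, w i ^ 2 := by
          calc A * (∑ i ∈ I, w i ^ 2) * (∑ n ∈ Icc 1 Z, f n ^ 2) ≤ A * (∑ i ∈ I, w i ^ 2) * S2 :=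
                mul_le_mul_of_nonneg_left hS3 (by positivity)
            _ = _ := by ring
        refine add_le_add h7 ?_
        apply mul_le_mul_of_nonneg_left _ (by positivity)
        linarith
      have h5 := box_one hA (by omega : 1 ≤ B) I s f u j (A * S2) (ℓ ^ (k - 1)) (A * S2) _ (by positivity) p1 p2 p3 (by positivity)
      refine h5.trans ?_
      have hnum := num_a k K hk CF c2 e ℓ L A N B hCF0 hc20 he0 hKr hB0 hNpos hA0 hℓ1 (by
          refine le_trans ?_ hℓQ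
          rw [hQ]
          exact (le_max_left _ _).trans (le_max_left _ _)) (by
          refine le_trans ?_ hℓQ
          rw [hQ]
          exact (le_max_right _ _).trans (le_max_left _ _)) hℓL hLℓ hcase hAN
      rw [← hS2d, ← hZr, ← hδ] at hnum
      have h6 : CF * N * (ℓ ^ (k - 1)) ^ 2 * ((2 * ℓ) ^ 2 * (A * N / ℓ ^ (2 * k + 4) + N) * S2 + δ ^ 2 * (ℓ ^ (2 * k + 4)) ^ 3) *
          (A * B : ℝ) ^ (k - 1) ≤ e / 2 * ((A * B : ℝ) ^ k * N ^ 2) := by
        calc _ ≤ e / 2 * (A * B * N ^ 2) * (A * B : ℝ) ^ (k - 1) := mul_le_mul_of_nonneg_right hnum (by positivity)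
          _ = e / 2 * ((A * B : ℝ) ^ (k - 1 + 1) * N ^ 2) := by rw [pow_succ]; ring
          _ = _ := by rw [Nat.sub_add_cancel hk]
      have h7 : (A * S2) * I.card * (A * S2) ^ (k - 1) ≤ e / 2 * ((A * B : ℝ) ^ k * N ^ 2) := by
        have g1 : (A * S2) * I.card * (A * S2) ^ (k - 1) = (A * S2) ^ k * I.card := by
          rw [← Nat.sub_add_cancel hk, pow_succ, Nat.add_sub_cancel]
          ring
        rw [g1]
        have g2 : (A * S2) ^ k ≤ (A * B : ℝ) ^ k * ((2 * c2 * K) ^ k * L ^ k) := by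
          rw [← mul_pow, ← mul_pow]
          apply pow_le_pow_left₀ (by positivity)
          rw [hS2d]
          have : (A : ℝ) * (c2 * (K * B) * ℓ) ≤ A * (c2 * (K * B) * (2 * L)) :=
            mul_le_mul_of_nonneg_left (mul_le_mul_of_nonneg_left hℓL (by positivity)) hA0.le
          refine this.trans (le_of_eq ?_)
          ring
        have g3 : (2 * c2 * K) ^ k * L ^ k ≤ e / 2 * N := by
          rw [hC] at hN
          have g4 : (2 * c2 * K) ^ k * (2 / e) * L ^ k ≤ N := by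
            refine le_trans ?_ hN
            have : 0 ≤ L ^ k := by positivity
            nlinarith
          have g5 : (2 * c2 * K) ^ k * L ^ k = e / 2 * ((2 * c2 * K) ^ k * (2 / e) * L ^ k) := by
            field_simp
          rw [g5]
          exact mul_le_mul_of_nonneg_left g4 (by positivity)
        calc (A * S2) ^ k * I.card ≤ ((A * B : ℝ) ^ k * (e / 2 * N)) * N := by
              apply mul_le_mul _ hIcard (Nat.cast_nonneg _) (by positivity)
              exact g2.trans (mul_le_mul_of_nonneg_left g3 (by positivity))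
          _ = _ := by ring
      linarith
    · -- small `A`
      have hmono := hdis.resolve_left hcase
      have p2 : ∀ w : ℕ → ℝ, (∀ i, |w i| ≤ ℓ ^ (k - 1)) →
          ∑ x ∈ Icc 1 A ×ˢ Icc 1 B, (∑ i ∈ I, w i * f (s j i + x.1 * i + x.2)) ^ 2 ≤ (A * δ ^ 2) * ∑ i ∈ I, w i ^ 2 + 0 := by
        intro w _
        rw [sum_product]
        have h4 : ∀ a ∈ Icc 1 A, ∑ b ∈ Icc 1 B, (∑ i ∈ I, w i * f (s j i + a * i + b)) ^ 2 ≤ δ ^ 2 * ∑ i ∈ I, w i ^ 2 := by
          intro a ha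
          rw [mem_Icc] at ha
          refine hFA f Z δ hsup I w (fun i => s j i + a * i) B (by omega) ?_ ?_
          · intro i hi
            have h5 := hs j i (hI hi)
            rw [← hZ] at h5
            have h6 : a * i ≤ A * i := Nat.mul_le_mul_right _ ha.2
            show s j i + a * i + B ≤ Z
            omega
          · have hlt : ∀ i ∈ I, ∀ i' ∈ I, i < i' → s j i + a * i < s j i' + a * i' := by
              intro i hi i' hi' hii
              have q1 := mem_Icc.1 (hI hi)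
              have q2 := mem_Icc.1 (hI hi')
              have q3 := hmono j (Set.mem_Icc.2 q1) (Set.mem_Icc.2 q2) hii.le
              have q4 : a * i < a * i' := Nat.mul_lt_mul_of_pos_left hii (by omega)
              omega
            intro i hi i' hi' hii
            simp only at hii
            rcases lt_trichotomy i i' with h | h | h
            · have := hlt i hi i' hi' h; omega
            · exact h
            · have := hlt i' hi' i hi h; omega
        refine (sum_le_sum h4).trans (le_of_eq ?_)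
        rw [sum_const, Nat.card_Icc, nsmul_eq_mul, Nat.add_sub_cancel]
        ring
      have h5 := box_one hA (by omega : 1 ≤ B) I s f u j (A * S2) (ℓ ^ (k - 1)) (A * δ ^ 2) 0 (by positivity) p1 p2 p3 (by positivity)
      refine h5.trans ?_
      rw [zero_mul, add_zero]
      have hnum := num_b k K hk c2 (e / 2) ℓ L A N B hc20 (by linarith) hKr hB0 hNpos hA0 hℓ1 (by
          refine le_trans ?_ hℓQ
          rw [hQ]
          exact (le_max_left _ _).trans (le_max_right _ _)) (by linarith) hLℓ (not_le.1 hcase).le hAN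
      rw [← hS2d, ← hZr, ← hδ] at hnum
      calc A * δ ^ 2 * I.card * (A * S2) ^ (k - 1) ≤ A * δ ^ 2 * N * (A * S2) ^ (k - 1) := by
            apply mul_le_mul_of_nonneg_right _ (by positivity)
            exact mul_le_mul_of_nonneg_left hIcard (by positivity)
        _ ≤ e / 2 * ((A * B : ℝ) ^ k * N ^ 2) := hnum
        _ ≤ _ := by
            apply mul_le_mul_of_nonneg_right _ (by positivity)
            linarith
  -- the end
  calc ∑ v ∈ Box k A B, (∑ i ∈ I, (∏ j, ArithmeticFunction.vonMangoldt (arg s v j i) - ∏ j, lamz z (arg s v j i))) ^ 2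
      ≤ ∑ v ∈ Box k A B, (k : ℝ) * ∑ j : Fin k, (∑ i ∈ I, (∏ l ∈ univ.erase j,
        (if l < j then ArithmeticFunction.vonMangoldt (arg s v l i) else lamz z (arg s v l i))) *
        (ArithmeticFunction.vonMangoldt (arg s v j i) - lamz z (arg s v j i))) ^ 2 := sum_le_sum fun v _ => tele s z v I
    _ = k * ∑ j : Fin k, ∑ v ∈ Box k A B, (∑ i ∈ I, (∏ l ∈ univ.erase j,
        (if l < j then ArithmeticFunction.vonMangoldt (arg s v l i) else lamz z (arg s v l i))) *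
        (ArithmeticFunction.vonMangoldt (arg s v j i) - lamz z (arg s v j i))) ^ 2 := by
        rw [← mul_sum, sum_comm]
    _ ≤ k * ∑ j : Fin k, e * ((A * B : ℝ) ^ k * N ^ 2) :=
        mul_le_mul_of_nonneg_left (sum_le_sum fun j _ => hone j) (Nat.cast_nonneg _)
    _ = ε * ((A * B : ℝ) ^ k * N ^ 2) := by
        rw [sum_const, card_univ, Fintype.card_fin, nsmul_eq_mul, he]
        field_simp

end Pool.Agent.L7h24.AV
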