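import Pool.Agent.L7h24.AV.Bas
import Pool.Agent.TP975.RP.Mod

/-!
Project AP: the primes are replaced by the sieve model. Basic bounds.
-/

set_option autoImplicit false

namespace Pool.Agent.L7h24.AV

open Finset
open Pool.Agent.H373R2.T7 (pz Vz lamz Vz_pos lamz_nonneg)
open Pool.Agent.H807R2.Dav (ee)

lemma lam_le {n Z : ℕ} (hn : n ≤ Z) (hZ : 1 ≤ Z) : ArithmeticFunction.vonMangoldt n ≤ Real.log Z := by
  rcases Nat.eq_zero_or_pos n with h | h
  · rw [h]; simp; exact Real.log_natCast_nonneg Z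
  · exact ArithmeticFunction.vonMangoldt_le_log.trans (Real.log_le_log (by exact_mod_cast h) (by exact_mod_cast hn))

lemma lamz_le_inv (z n : ℕ) : lamz z n ≤ (Vz z)⁻¹ := by
  unfold lamz
  split_ifs
  · exact le_rfl
  · exact (inv_pos.2 (Vz_pos z)).le

lemma sq_lam_sum (Z : ℕ) (hZ : 1 ≤ Z) : ∑ n ∈ Icc 1 Z, ArithmeticFunction.vonMangoldt n ^ 2 ≤ (Real.log 4 + 4) * Z * Real.log Z := by
  have h1 : ∑ n ∈ Icc 1 Z, ArithmeticFunction.vonMangoldt n ^ 2 ≤ ∑ n ∈ Icc 1 Z, Real.log Z * ArithmeticFunction.vonMangoldt n := by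
    apply sum_le_sum
    intro n hn
    rw [mem_Icc] at hn
    have h0 := @ArithmeticFunction.vonMangoldt_nonneg n
    have h2 := lam_le hn.2 hZ
    nlinarith
  refine h1.trans ?_
  rw [← mul_sum]
  have h3 := Chebyshev.psi_le_const_mul_self (x := (Z : ℝ)) (Nat.cast_nonneg _)
  have h4 : Chebyshev.psi (Z : ℝ) = ∑ n ∈ Icc 1 Z, ArithmeticFunction.vonMangoldt n := by
    unfold Chebyshev.psi
    rw [Nat.floor_natCast]
    rfl
  rw [h4] at h3
  have h5 : 0 ≤ Real.log Z := Real.log_natCast_nonneg Z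
  calc Real.log Z * ∑ n ∈ Icc 1 Z, ArithmeticFunction.vonMangoldt n ≤ Real.log Z * ((Real.log 4 + 4) * Z) :=
        mul_le_mul_of_nonneg_left h3 h5
    _ = _ := by ring

lemma sq_lamz_sum (z Z : ℕ) (L : ℝ) (hV : ((Vz z)⁻¹) ^ 2 ≤ L) : ∑ n ∈ Icc 1 Z, lamz z n ^ 2 ≤ Z * L := by
  have h1 : ∀ n ∈ Icc 1 Z, lamz z n ^ 2 ≤ L := by
    intro n _
    exact (pow_le_pow_left₀ (lamz_nonneg z n) (lamz_le_inv z n) 2).trans hV
  refine (sum_le_sum h1).trans (le_of_eq ?_)
  rw [sum_const, Nat.card_Icc, nsmul_eq_mul, Nat.add_sub_cancel]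

/-- second moments along an arithmetic progression of windows -/
lemma win_sum (u : ℕ → ℝ) (A B Z t i : ℕ) (hB : 1 ≤ B) (h : t + A * i + B ≤ Z) (S : ℝ) (hS : ∑ n ∈ Icc 1 Z, u n ^ 2 ≤ S) :
    ∑ x ∈ Icc 1 A ×ˢ Icc 1 B, u (t + x.1 * i + x.2) ^ 2 ≤ A * S := by
  rw [sum_product]
  have h1 : ∀ a ∈ Icc 1 A, ∑ b ∈ Icc 1 B, u (t + a * i + b) ^ 2 ≤ S := by
    intro a ha
    rw [mem_Icc] at ha
    refine le_trans ?_ hS
    have h2 : ∑ b ∈ Icc 1 B, u (t + a * i + b) ^ 2 = ∑ n ∈ (Icc 1 B).image (fun b => t + a * i + b), u n ^ 2 := by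
      rw [sum_image]
      intro b _ b' _ hbb
      simpa using hbb
    rw [h2]
    apply sum_le_sum_of_subset_of_nonneg
    · intro n hn
      rw [mem_image] at hn
      obtain ⟨b, hb, rfl⟩ := hn
      rw [mem_Icc] at hb ⊢
      have h3 : a * i ≤ A * i := Nat.mul_le_mul_right _ ha.2
      omega
    · intro _ _ _
      positivity
  refine (sum_le_sum h1).trans (le_of_eq ?_)
  rw [sum_const, Nat.card_Icc, nsmul_eq_mul, Nat.add_sub_cancel]

/-- telescoping -/
lemma tele {k : ℕ} (s : Fin k → ℕ → ℕ) (z : ℕ) (v : Fin k → ℕ × ℕ) (I : Finset ℕ) :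
    (∑ i ∈ I, (∏ j, ArithmeticFunction.vonMangoldt (arg s v j i) - ∏ j, lamz z (arg s v j i))) ^ 2 ≤
    k * ∑ j : Fin k, (∑ i ∈ I, (∏ l ∈ univ.erase j,
      (if l < j then ArithmeticFunction.vonMangoldt (arg s v l i) else lamz z (arg s v l i))) *
      (ArithmeticFunction.vonMangoldt (arg s v j i) - lamz z (arg s v j i))) ^ 2 := by
  have h1 : ∑ i ∈ I, (∏ j, ArithmeticFunction.vonMangoldt (arg s v j i) - ∏ j, lamz z (arg s v j i)) =
      ∑ j : Fin k, ∑ i ∈ I, (∏ l ∈ univ.erase j,
      (if l < j then ArithmeticFunction.vonMangoldt (arg s v l i) else lamz z (arg s v l i))) *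
      (ArithmeticFunction.vonMangoldt (arg s v j i) - lamz z (arg s v j i)) := by
    rw [sum_comm]
    apply sum_congr rfl
    intro i _
    have h2 := prod_add_ordered (univ : Finset (Fin k)) (fun j => lamz z (arg s v j i))
      (fun j => ArithmeticFunction.vonMangoldt (arg s v j i) - lamz z (arg s v j i))
    simp only [add_sub_cancel] at h2
    rw [h2, add_sub_cancel_left]
    apply sum_congr rfl
    intro j _
    have h3 : ∏ l ∈ univ.erase j, (if l < j then ArithmeticFunction.vonMangoldt (arg s v l i) else lamz z (arg s v l i)) =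
        (∏ l ∈ univ.filter (fun l => l < j), ArithmeticFunction.vonMangoldt (arg s v l i)) *
        ∏ l ∈ univ.filter (fun l => j < l), lamz z (arg s v l i) := by
      rw [← prod_filter_mul_prod_filter_not (univ.erase j) (fun l => l < j)]
      congr 1
      · have e : (univ.erase j).filter (fun l => l < j) = univ.filter (fun l => l < j) := by
          ext l
          simp only [mem_filter, mem_erase, mem_univ, and_true, true_and]
          constructor
          · rintro ⟨_, h⟩; exact h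
          · intro h; exact ⟨ne_of_lt h, h⟩
        rw [e]
        apply prod_congr rfl
        intro l hl
        rw [mem_filter] at hl
        rw [if_pos hl.2]
      · have e : (univ.erase j).filter (fun l => ¬ l < j) = univ.filter (fun l => j < l) := by
          ext l
          simp only [mem_filter, mem_erase, mem_univ, and_true, true_and]
          constructor
          · rintro ⟨h, h'⟩; exact lt_of_le_of_ne (not_lt.1 h') (Ne.symm h)
          · intro h; exact ⟨ne_of_gt h, not_lt.2 h.le⟩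
        rw [e]
        apply prod_congr rfl
        intro l hl
        rw [mem_filter] at hl
        rw [if_neg (not_lt.2 hl.2.le)]
    rw [h3]
    ring
  rw [h1]
  have h4 := sq_sum_le_card_mul_sum_sq (s := (univ : Finset (Fin k))) (f := fun j => ∑ i ∈ I, (∏ l ∈ univ.erase j,
      (if l < j then ArithmeticFunction.vonMangoldt (arg s v l i) else lamz z (arg s v l i))) *
      (ArithmeticFunction.vonMangoldt (arg s v j i) - lamz z (arg s v j i)))
  rw [card_univ, Fintype.card_fin] at h4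
  exact h4

end Pool.Agent.L7h24.AV
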